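import Pool.Agent.Q124.NF.LE1
import Pool.Agent.Q14.LQ.LA2

set_option autoImplicit false
set_option linter.unusedSectionVars false

/-!
# Project NF (helper253), job LE: bounded exponential means exclude zeros off the line
-/

namespace Pool.Agent.Q124.NF

open MeasureTheory Filter Topology Set Complex
open scoped ComplexConjugate
open Pool.Agent.Q253.NF Pool.Agent.Q184.NF
open Pool.Agent.Q14.LQ (lp lp_int lp_diff lp_re_mono exp_mono_int landau_lp)

theorem lc_split {fp fm : ℝ → ℝ} {P r : ℝ → ℂ} (cp : Continuous fp) (cm : Continuous fm) (cr : Continuous r)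
    (e : ∀ u, P u = r u - ((fp u : ℂ) - fm u)) {z : ℂ}
    (h1 : IntegrableOn (fun u => ‖r u‖ * Real.exp (-(z.re * u))) (Ioi 0))
    (h2 : IntegrableOn (fun u => |fp u| * Real.exp (-(z.re * u))) (Ioi 0))
    (h3 : IntegrableOn (fun u => |fm u| * Real.exp (-(z.re * u))) (Ioi 0)) :
    lc P z = lc r z - lp fp z + lp fm z := by
  have i1 := lc_int cr h1
  have i2 := lp_int cp h2
  have i3 := lp_int cm h3
  have i12 : IntegrableOn (fun u : ℝ => r u * cexp (-z * u) - (fp u : ℂ) * cexp (-z * u)) (Ioi 0) := i1.sub i2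
  unfold lc Pool.Agent.Q14.LQ.lp
  rw [← integral_sub i1 i2, ← integral_add i12 i3]
  refine setIntegral_congr_fun measurableSet_Ioi fun u _ => ?_
  rw [e u]
  ring

section
variable {ι : Type} [Fintype ι] (D : ι → Dat) (n : ι → ℤ)

/-- the function `Psi - ∑ n i * logDeriv (X i)` -/
noncomputable def Th (z : ℂ) : ℂ := Psi D n z - ∑ i, (n i : ℂ) * logDeriv (D i).X z

theorem Th_one : Th D n 1 = 0 := by
  unfold Th Psi
  rw [← Finset.sum_sub_distrib]
  refine Finset.sum_eq_zero fun i _ => ?_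
  rw [(D i).ld 1 (by norm_num)]
  have e1 : (1 : ℂ) / (1 + 1 / 2) = 2 / 3 := by norm_num
  have e2 : (1 : ℂ) / (1 - 1 / 2) = 2 := by norm_num
  rw [e1, e2]
  ring

theorem Th_diff {z : ℂ} (hz : 1 / 2 < z.re) : DifferentiableAt ℂ (Th D n) z := by
  unfold Th
  refine (Psi_diff D n (by linarith)).sub (DifferentiableAt.fun_sum fun i _ => DifferentiableAt.const_mul ?_ _)
  have h1 : AnalyticAt ℂ (D i).X z := (D i).diff.analyticAt z
  exact (h1.deriv.div h1 (X_ne (D i) hz)).differentiableAt

/-- the transform of the negative part converges in the right half plane -/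
theorem main_conv {fp fm : ℝ → ℝ} {r : ℝ → ℂ} (cp : Continuous fp) (cm : Continuous fm) (cr : Continuous r)
    (p0 : ∀ u, 0 ≤ fp u) (m0 : ∀ u, 0 ≤ fm u)
    (e : ∀ u, PP D n u = r u - ((fp u : ℂ) - fm u))
    (hN : ∀ a : ℂ, 0 < a.re → 0 ≤ nn D n a)
    (hp : ∀ σ : ℝ, 0 < σ → IntegrableOn (fun u => fp u * Real.exp (-(σ * u))) (Ioi 0))
    (hri : ∀ σ : ℝ, 0 < σ → IntegrableOn (fun u => ‖r u‖ * Real.exp (-(σ * u))) (Ioi 0))
    (hm1 : ∀ σ : ℝ, 1 < σ → IntegrableOn (fun u => fm u * Real.exp (-(σ * u))) (Ioi 0))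
    (hPi : ∀ a : ℝ, 0 ≤ a → (∀ σ : ℝ, a < σ → IntegrableOn (fun u => fm u * Real.exp (-(σ * u))) (Ioi 0)) →
      ∀ σ : ℝ, a < σ → IntegrableOn (fun u => ‖PP D n u‖ * Real.exp (-(σ * u))) (Ioi 0)) :
    ∀ σ : ℝ, 0 < σ → IntegrableOn (fun u => fm u * Real.exp (-(σ * u))) (Ioi 0) := by
  have hpa : ∀ σ : ℝ, 0 < σ → IntegrableOn (fun u => |fp u| * Real.exp (-(σ * u))) (Ioi 0) := by
    intro σ hσ
    simp_rw [fun u => abs_of_nonneg (p0 u)]
    exact hp σ hσ
  by_contra hcon
  push Not at hcon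
  obtain ⟨a, ha, hna⟩ := hcon
  set T : Set ℝ := {σ : ℝ | IntegrableOn (fun u => fm u * Real.exp (-(σ * u))) (Ioi 0)} with hT
  have hup : ∀ σ τ : ℝ, σ ≤ τ → σ ∈ T → τ ∈ T := fun σ τ hστ hσ => exp_mono_int cm m0 hστ hσ
  have hlb : ∀ σ ∈ T, a ≤ σ := by
    intro σ hσ
    by_contra hlt
    push Not at hlt
    exact hna (hup σ a hlt.le hσ)
  have hbdd : BddBelow T := ⟨a, hlb⟩
  have hT1 : ∀ σ : ℝ, 1 < σ → σ ∈ T := fun σ hσ => hm1 σ hσ
  have hne : T.Nonempty := ⟨2, hT1 2 (by norm_num)⟩
  set s0 : ℝ := sInf T with hs0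
  have h1 : a ≤ s0 := le_csInf hne hlb
  have h2 : s0 ≤ 1 := le_of_forall_pos_le_add fun ε hε => csInf_le hbdd (hT1 _ (by linarith))
  have hgt : ∀ σ : ℝ, s0 < σ → IntegrableOn (fun u => fm u * Real.exp (-(σ * u))) (Ioi 0) := by
    intro σ hσ
    obtain ⟨τ, hτ, hτσ⟩ := exists_lt_of_csInf_lt hne hσ
    exact hup τ σ hτσ.le hτ
  have hgta : ∀ σ : ℝ, s0 < σ → IntegrableOn (fun u => |fm u| * Real.exp (-(σ * u))) (Ioi 0) := by
    intro σ hσ
    simp_rw [fun u => abs_of_nonneg (m0 u)]
    exact hgt σ hσ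
  have hlt : ∀ σ : ℝ, σ < s0 → σ ∉ T := fun σ hσ hmem => absurd (csInf_le hbdd hmem) (not_le.2 hσ)
  have hs0' : 0 < s0 := by linarith
  have hPs := hPi s0 hs0'.le hgt
  have hid : ∀ z : ℂ, s0 < z.re → (∀ i, (D i).X z ≠ 0) →
      (1 - z ^ 2) / 2 * (lc r z - lp fp z + lp fm z) = Th D n z := by
    intro z hz hX
    have h3 := ident' D n hs0'.le hPs hz hX
    rw [Phi_split, lc_split cp cm cr e (hri _ (by linarith)) (hpa _ (by linarith)) (hgta _ hz)] at h3
    unfold Th
    rw [h3]
    ring
  have hsq : ∀ z : ℂ, 0 < z.re → z ≠ 1 → 1 - z ^ 2 ≠ 0 := by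
    intro z hz1 hz2 h
    have h3 : (1 - z) * (1 + z) = 0 := by linear_combination h
    rcases mul_eq_zero.1 h3 with h4 | h4
    · exact hz2 (sub_eq_zero.1 h4).symm
    · have := congrArg Complex.re h4
      simp at this
      linarith
  rcases lt_or_eq_of_le h2 with hlt1 | heq1
  · -- no pole at `s0`
    have hN0 : nn D n (s0 : ℂ) = 0 := by
      refine le_antisymm ?_ (hN _ (by rw [Complex.ofReal_re]; exact hs0'))
      have hmap : Tendsto (fun t : ℝ => (t : ℂ)) (𝓝[>] s0) (𝓝[≠] (s0 : ℂ)) := by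
        refine tendsto_nhdsWithin_iff.2 ⟨?_, ?_⟩
        · exact (Complex.continuous_ofReal.tendsto s0).mono_left nhdsWithin_le_nhds
        · filter_upwards [self_mem_nhdsWithin] with t ht
          have ht' : s0 < t := ht
          intro h3
          have h4 : (t : ℂ) = (s0 : ℂ) := h3
          have h5 : t = s0 := by exact_mod_cast h4
          linarith
      have l1 := (res_sum D n (s0 : ℂ)).comp hmap
      have l2 : Tendsto (fun t : ℝ => (((t : ℂ) - (s0 : ℂ)) * ∑ i, (n i : ℂ) * logDeriv (D i).X t).re) (𝓝[>] s0)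
          (𝓝 ((nn D n (s0 : ℂ) : ℂ)).re) := (Complex.continuous_re.tendsto _).comp l1
      have l3 : Tendsto (fun t : ℝ => (((t : ℂ) - (s0 : ℂ)) * (Psi D n t - (1 - (t : ℂ) ^ 2) / 2 *
          (lc r t - lp fp t))).re) (𝓝[>] s0) (𝓝 0) := by
        have hre : (0 : ℝ) < ((s0 : ℝ) : ℂ).re := by rw [Complex.ofReal_re]; exact hs0'
        have c1 : ContinuousAt (fun z : ℂ => (z - (s0 : ℂ)) * (Psi D n z - (1 - z ^ 2) / 2 * (lc r z - lp fp z)))
            (s0 : ℂ) := by
          have d1 := (Psi_diff D n hre).continuousAt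
          have d2 := (lc_diff cr hri hre).continuousAt
          have d3 := (lp_diff cp hpa hre).continuousAt
          have d4 : ContinuousAt (fun z : ℂ => (1 - z ^ 2) / 2) (s0 : ℂ) := by fun_prop
          exact (continuousAt_id.sub continuousAt_const).mul (d1.sub (d4.mul (d2.sub d3)))
        have c2 := c1.tendsto
        simp only [sub_self, zero_mul] at c2
        have c3 := (c2.mono_left nhdsWithin_le_nhds).comp hmap
        have c4 := (Complex.continuous_re.tendsto _).comp c3
        rw [Complex.zero_re] at c4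
        exact c4
      have hev : ∀ᶠ z in 𝓝[≠] (s0 : ℂ), ∀ i, (D i).X z ≠ 0 := eventually_all.2 fun i => (res (D i) (s0 : ℂ)).2
      have hev' := hmap.eventually hev
      have hle : ((nn D n (s0 : ℂ) : ℂ)).re ≤ 0 := by
        refine le_of_tendsto_of_tendsto l2 l3 ?_
        have ht1 : ∀ᶠ t : ℝ in 𝓝[>] s0, t < 1 := nhdsWithin_le_nhds (gt_mem_nhds hlt1)
        filter_upwards [hev', self_mem_nhdsWithin, ht1] with t hX ht hti
        have ht' : s0 < t := ht
        have h3 := hid (t : ℂ) (by rw [Complex.ofReal_re]; exact ht') hX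
        have h4 : ∑ i, (n i : ℂ) * logDeriv (D i).X t = (Psi D n t - (1 - (t : ℂ) ^ 2) / 2 *
            (lc r t - lp fp t)) - (((1 - t ^ 2) / 2 : ℝ) : ℂ) * lp fm t := by
          unfold Th at h3
          push_cast
          linear_combination h3
        have h5 := (lp_re_mono cm m0 (le_refl t) (hgt t ht')).1
        have h6 : (((t : ℂ) - (s0 : ℂ)) * ∑ i, (n i : ℂ) * logDeriv (D i).X t).re =
            (((t : ℂ) - (s0 : ℂ)) * (Psi D n t - (1 - (t : ℂ) ^ 2) / 2 * (lc r t - lp fp t))).re -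
            (t - s0) * ((1 - t ^ 2) / 2 * (lp fm t).re) := by
          rw [h4, mul_sub, Complex.sub_re]
          congr 1
          rw [← Complex.ofReal_sub, Complex.re_ofReal_mul, Complex.re_ofReal_mul]
        rw [h6]
        have h7 : 0 ≤ (1 - t ^ 2) / 2 := by nlinarith
        have h8 : 0 ≤ (t - s0) * ((1 - t ^ 2) / 2 * (lp fm t).re) :=
          mul_nonneg (by linarith) (mul_nonneg h7 h5)
        linarith
      rw [Complex.intCast_re] at hle
      exact_mod_cast hle
    -- the continuation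
    obtain ⟨g, hg, hgev⟩ := res_loc_sum D n (s0 : ℂ)
    rw [hN0] at hgev
    have hev : ∀ᶠ z in 𝓝[≠] (s0 : ℂ), ∀ i, (D i).X z ≠ 0 := eventually_all.2 fun i => (res (D i) (s0 : ℂ)).2
    have hboth := hg.eventually_analyticAt.and ((eventually_nhdsWithin_iff.1 hgev).and
      (eventually_nhdsWithin_iff.1 hev))
    obtain ⟨ρ1, hρ1, hball⟩ := Metric.eventually_nhds_iff_ball.1 hboth
    set ρ : ℝ := min ρ1 (min s0 (1 - s0)) with hρ
    have hρ0 : 0 < ρ := lt_min hρ1 (lt_min hs0' (by linarith))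
    have hρa : ρ ≤ ρ1 := min_le_left _ _
    have hρb : ρ ≤ s0 := (min_le_right _ _).trans (min_le_left _ _)
    have hρc : ρ ≤ 1 - s0 := (min_le_right _ _).trans (min_le_right _ _)
    have hin : ∀ z : ℂ, z ∈ Metric.ball ((s0 + ρ / 4 : ℝ) : ℂ) (3 * ρ / 4) →
        0 < z.re ∧ z.re < 1 ∧ z ∈ Metric.ball (s0 : ℂ) ρ1 := by
      intro z hz
      rw [Metric.mem_ball, dist_eq_norm] at hz
      have h3 : ‖z - (s0 : ℂ)‖ < ρ := by
        have e : z - (s0 : ℂ) = (z - ((s0 + ρ / 4 : ℝ) : ℂ)) + ((ρ / 4 : ℝ) : ℂ) := by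
          push_cast
          ring
        rw [e]
        refine (norm_add_le _ _).trans_lt ?_
        rw [Complex.norm_real, Real.norm_of_nonneg (by linarith)]
        linarith
      have h4 := (Complex.abs_re_le_norm (z - (s0 : ℂ))).trans_lt h3
      rw [Complex.sub_re, Complex.ofReal_re, abs_lt] at h4
      refine ⟨by linarith [h4.1], by linarith [h4.2], ?_⟩
      rw [Metric.mem_ball, dist_eq_norm]
      linarith
    have hne1 : ∀ z : ℂ, z.re < 1 → z ≠ 1 := by
      intro z hz h
      rw [h] at hz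
      simp at hz
    have hGd : DifferentiableOn ℂ (fun z => lp fp z - lc r z + 2 / (1 - z ^ 2) * (Psi D n z - g z))
        (Metric.ball ((s0 + ρ / 4 : ℝ) : ℂ) (3 * ρ / 4)) := by
      intro z hz
      obtain ⟨h3, h4, h5⟩ := hin z hz
      have d1 := lp_diff cp hpa (z := z) h3
      have d2 := lc_diff cr hri (z := z) h3
      have d3 := Psi_diff D n h3
      have d4 := (hball z h5).1.differentiableAt
      have d5 : DifferentiableAt ℂ (fun z : ℂ => 2 / (1 - z ^ 2)) z :=
        (differentiableAt_const _).div (by fun_prop) (hsq z h3 (hne1 z h4))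
      exact ((d1.sub d2).add (d5.mul (d3.sub d4))).differentiableWithinAt
    have hint : IntegrableOn (fun u => fm u * Real.exp (-((s0 + ρ / 8) * u))) (Ioi 0) := hgt _ (by linarith)
    have key := landau_lp cm m0 (c := s0 + ρ / 4) (c' := s0 + ρ / 8) (R := 3 * ρ / 4) (r := ρ / 2) (by linarith) hint
      hGd (fun t ht1 ht2 => by
        have h3 : (t : ℂ) ∈ Metric.ball ((s0 + ρ / 4 : ℝ) : ℂ) (3 * ρ / 4) := by
          rw [Metric.mem_ball, dist_eq_norm, ← Complex.ofReal_sub, Complex.norm_real, Real.norm_eq_abs]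
          exact ht2
        obtain ⟨h4, h5, h6⟩ := hin _ h3
        have hts : (t : ℂ) ∈ ({(s0 : ℂ)}ᶜ : Set ℂ) := by
          intro h
          have h7 : (t : ℂ) = (s0 : ℂ) := h
          have h8 : t = s0 := by exact_mod_cast h7
          linarith
        obtain ⟨-, b2, b3⟩ := hball _ h6
        have b2' := b2 hts
        have b3' := b3 hts
        have h7 := hid (t : ℂ) (by rw [Complex.ofReal_re]; linarith) b3'
        have h8 := hsq _ h4 (hne1 _ h5)
        unfold Th at h7
        rw [b2', Int.cast_zero, zero_div, zero_add] at h7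
        rw [← h7]
        field_simp
        ring) (by linarith) (by linarith)
    exact hlt (s0 - ρ / 4) (by linarith) (by
      have e : s0 + ρ / 4 - ρ / 2 = s0 - ρ / 4 := by ring
      rw [e] at key
      exact key)
  · -- the point `1`
    have hin : ∀ z : ℂ, z ∈ Metric.ball ((s0 + 1 / 8 : ℝ) : ℂ) (3 / 8) → 1 / 2 < z.re := by
      intro z hz
      rw [Metric.mem_ball, dist_eq_norm] at hz
      have h4 := (Complex.abs_re_le_norm (z - ((s0 + 1 / 8 : ℝ) : ℂ))).trans_lt hz
      rw [Complex.sub_re, Complex.ofReal_re, abs_lt] at h4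
      linarith [h4.1]
    have hopen : IsOpen {z : ℂ | 1 / 2 < z.re} := isOpen_lt continuous_const Complex.continuous_re
    have h1mem : {z : ℂ | 1 / 2 < z.re} ∈ 𝓝 (1 : ℂ) := hopen.mem_nhds (by
      show (1 : ℝ) / 2 < (1 : ℂ).re
      norm_num)
    have hK : DifferentiableOn ℂ (dslope (Th D n) 1) {z : ℂ | 1 / 2 < z.re} :=
      (Complex.differentiableOn_dslope h1mem).2 fun z hz => (Th_diff D n hz).differentiableWithinAt
    have hGd : DifferentiableOn ℂ (fun z => lp fp z - lc r z - 2 / (1 + z) * dslope (Th D n) 1 z)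
        (Metric.ball ((s0 + 1 / 8 : ℝ) : ℂ) (3 / 8)) := by
      intro z hz
      have h3 := hin z hz
      have d1 := lp_diff cp hpa (z := z) (by linarith)
      have d2 := lc_diff cr hri (z := z) (by linarith)
      have d3 := (hK z h3).differentiableAt (hopen.mem_nhds h3)
      have n3 : 1 + z ≠ 0 := by
        intro h
        have := congrArg Complex.re h
        simp at this
        linarith
      have d5 : DifferentiableAt ℂ (fun z : ℂ => 2 / (1 + z)) z :=
        (differentiableAt_const _).div (by fun_prop) n3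
      exact ((d1.sub d2).sub (d5.mul d3)).differentiableWithinAt
    have hint : IntegrableOn (fun u => fm u * Real.exp (-((s0 + 1 / 16) * u))) (Ioi 0) := hgt _ (by linarith)
    have key := landau_lp cm m0 (c := s0 + 1 / 8) (c' := s0 + 1 / 16) (R := 3 / 8) (r := 1 / 4) (by linarith) hint
      hGd (fun t ht1 ht2 => by
        have h3 : (t : ℂ) ∈ Metric.ball ((s0 + 1 / 8 : ℝ) : ℂ) (3 / 8) := by
          rw [Metric.mem_ball, dist_eq_norm, ← Complex.ofReal_sub, Complex.norm_real, Real.norm_eq_abs]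
          exact ht2
        have h4 := hin _ h3
        have hX : ∀ i, (D i).X (t : ℂ) ≠ 0 := fun i => X_ne (D i) h4
        have h7 := hid (t : ℂ) (by rw [Complex.ofReal_re]; linarith) hX
        have ht1' : (t : ℂ) ≠ 1 := by
          intro h
          have h8 : t = 1 := by exact_mod_cast h
          linarith
        have h8 := hsq (t : ℂ) (by linarith) ht1'
        have n3 : 1 + (t : ℂ) ≠ 0 := by
          intro h
          have := congrArg Complex.re h
          simp at this
          rw [Complex.ofReal_re] at h4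
          linarith
        have n4 : (t : ℂ) - 1 ≠ 0 := sub_ne_zero.2 ht1'
        rw [dslope_of_ne _ ht1', slope_def_field, Th_one, sub_zero, ← h7]
        field_simp
        ring) (by linarith) (by linarith)
    exact hlt (s0 - 1 / 8) (by linarith) (by
      have e : s0 + 1 / 8 - 1 / 4 = s0 - 1 / 8 := by ring
      rw [e] at key
      exact key)

theorem PP_int {z : ℂ} (hz : 1 < z.re) : IntegrableOn (fun u : ℝ => PP D n u * cexp (-z * u)) (Ioi 0) := by
  have e : (fun u : ℝ => PP D n u * cexp (-z * u)) = fun u : ℝ => ∑ i, (n i : ℂ) * ((D i).P u * cexp (-z * u)) := by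
    funext u
    unfold PP
    rw [Finset.sum_mul]
    exact Finset.sum_congr rfl fun i _ => by ring
  rw [e]
  exact integrable_finsetSum _ fun i _ => (P_int (D i) hz).1.const_mul _

end

/-- **Job LE** -/
theorem le_hyp : S_LE := by
  intro ι _ D n f lam hf hr hN hlam hbd
  obtain ⟨C, hC⟩ := hr
  obtain ⟨K, hK⟩ := hbd
  set fp : ℝ → ℝ := fun u => max (f u) 0 with hfp
  set fm : ℝ → ℝ := fun u => max (-f u) 0 with hfm
  have cp : Continuous fp := hf.max continuous_const
  have cm : Continuous fm := hf.neg.max continuous_const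
  have p0 : ∀ u, 0 ≤ fp u := fun u => le_max_right _ _
  have m0 : ∀ u, 0 ≤ fm u := fun u => le_max_right _ _
  have hsub : ∀ u, f u = fp u - fm u := by
    intro u
    simp only [hfp, hfm]
    rcases le_total 0 (f u) with h | h
    · rw [max_eq_left h, max_eq_right (by linarith)]
      ring
    · rw [max_eq_right h, max_eq_left (by linarith)]
      ring
  set r : ℝ → ℂ := fun u => (f u : ℂ) + PP D n u with hrdef
  have cr : Continuous r := (Complex.continuous_ofReal.comp hf).add (PP_cont D n)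
  have e : ∀ u, PP D n u = r u - ((fp u : ℂ) - fm u) := by
    intro u
    have h1 : (f u : ℂ) = (fp u : ℂ) - fm u := by
      rw [hsub u]
      push_cast
      rfl
    simp only [hrdef]
    rw [h1]
    ring
  have hp : ∀ σ : ℝ, 0 < σ → IntegrableOn (fun u => fp u * Real.exp (-(σ * u))) (Ioi 0) := by
    intro σ hσ
    refine int_of_bound cp p0 (C := K / lam) ?_ hσ
    filter_upwards [hK, eventually_gt_atTop 0] with U hU hU0
    have cexp' : Continuous fun u => Real.exp (lam * f u) / lam := by fun_prop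
    have e1 : ∫ u in (0 : ℝ)..U, fp u ≤ ∫ u in (0 : ℝ)..U, Real.exp (lam * f u) / lam := by
      refine intervalIntegral.integral_mono_on hU0.le (cp.intervalIntegrable _ _) (cexp'.intervalIntegrable _ _)
        fun u _ => ?_
      rw [le_div_iff₀ hlam]
      simp only [hfp]
      rcases le_total 0 (f u) with h | h
      · rw [max_eq_left h]
        have := Real.add_one_le_exp (lam * f u)
        linarith
      · rw [max_eq_right h, zero_mul]
        exact (Real.exp_pos _).le
    rw [intervalIntegral.integral_div] at e1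
    have e2 : ∫ u in (0 : ℝ)..U, Real.exp (lam * f u) ≤ K * U := by
      rw [one_div, inv_mul_le_iff₀ hU0] at hU
      linarith
    refine e1.trans ?_
    rw [div_mul_eq_mul_div]
    exact (div_le_div_iff_of_pos_right hlam).2 e2
  have hri : ∀ σ : ℝ, 0 < σ → IntegrableOn (fun u => ‖r u‖ * Real.exp (-(σ * u))) (Ioi 0) := by
    intro σ hσ
    have i1 : IntegrableOn (fun u : ℝ => |C| * Real.exp (-σ * u)) (Ioi 0) :=
      (integrableOn_exp_mul_Ioi (by linarith) 0).const_mul _
    refine Integrable.mono' i1 ((cr.norm.mul (by fun_prop)).aestronglyMeasurable) ?_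
    refine (ae_restrict_iff' measurableSet_Ioi).2 (Eventually.of_forall fun u hu => ?_)
    have hu0 : 0 < u := hu
    rw [Real.norm_of_nonneg (mul_nonneg (norm_nonneg _) (Real.exp_pos _).le)]
    have h1 := hC u hu0.le
    have h2 : Real.exp (-(u / 4)) ≤ 1 := Real.exp_le_one_iff.2 (by linarith)
    have h3 : C * Real.exp (-(u / 4)) ≤ |C| * 1 :=
      mul_le_mul (le_abs_self _) h2 (Real.exp_pos _).le (abs_nonneg _)
    have h4 : ‖r u‖ ≤ |C| := by
      simp only [hrdef]
      linarith
    rw [show -(σ * u) = -σ * u by ring]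
    exact mul_le_mul_of_nonneg_right h4 (Real.exp_pos _).le
  have hP1 : ∀ σ : ℝ, 1 < σ → IntegrableOn (fun u => ‖PP D n u‖ * Real.exp (-(σ * u))) (Ioi 0) := by
    intro σ hσ
    have h1 := (PP_int D n (z := (σ : ℂ)) (by rw [Complex.ofReal_re]; exact hσ)).norm
    refine h1.congr (Eventually.of_forall fun u => ?_)
    simp only
    rw [lc_norm, Complex.ofReal_re]
  have hm1 : ∀ σ : ℝ, 1 < σ → IntegrableOn (fun u => fm u * Real.exp (-(σ * u))) (Ioi 0) := by
    intro σ hσ
    refine Integrable.mono' ((hri σ (by linarith)).add (hP1 σ hσ)) ((cm.mul (by fun_prop)).aestronglyMeasurable)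
      (Eventually.of_forall fun u => ?_)
    rw [Real.norm_of_nonneg (mul_nonneg (m0 u) (Real.exp_pos _).le), Pi.add_apply, ← add_mul]
    refine mul_le_mul_of_nonneg_right ?_ (Real.exp_pos _).le
    have h1 : fm u ≤ |f u| := max_le (neg_le_abs _) (abs_nonneg _)
    have h2 : |f u| = ‖r u - PP D n u‖ := by
      have h3 : r u - PP D n u = (f u : ℂ) := by
        simp only [hrdef]
        ring
      rw [h3, Complex.norm_real, Real.norm_eq_abs]
    rw [h2] at h1
    exact h1.trans (norm_sub_le _ _)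
  have hPi : ∀ a : ℝ, 0 ≤ a → (∀ σ : ℝ, a < σ → IntegrableOn (fun u => fm u * Real.exp (-(σ * u))) (Ioi 0)) →
      ∀ σ : ℝ, a < σ → IntegrableOn (fun u => ‖PP D n u‖ * Real.exp (-(σ * u))) (Ioi 0) := by
    intro a ha hma σ hσ
    refine Integrable.mono' (((hri σ (by linarith)).add (hp σ (by linarith))).add (hma σ hσ))
      (((PP_cont D n).norm.mul (by fun_prop)).aestronglyMeasurable) (Eventually.of_forall fun u => ?_)
    rw [Real.norm_of_nonneg (mul_nonneg (norm_nonneg _) (Real.exp_pos _).le), Pi.add_apply, Pi.add_apply,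
      ← add_mul, ← add_mul]
    refine mul_le_mul_of_nonneg_right ?_ (Real.exp_pos _).le
    rw [e u]
    refine (norm_sub_le _ _).trans ?_
    have h1 : ‖(fp u : ℂ) - fm u‖ ≤ fp u + fm u := by
      refine (norm_sub_le _ _).trans ?_
      rw [Complex.norm_real, Complex.norm_real, Real.norm_of_nonneg (p0 u), Real.norm_of_nonneg (m0 u)]
    linarith
  have main := main_conv D n cp cm cr p0 m0 e hN hp hri hm1 hPi
  have hP0 := hPi 0 le_rfl main
  intro a ha
  rcases lt_or_gt_of_ne ha with h1 | h1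
  · rw [← nn_conj]
    refine nn_pos' D n le_rfl hP0 ?_
    rw [Complex.neg_re, Complex.conj_re]
    linarith
  · exact nn_pos' D n le_rfl hP0 h1

end Pool.Agent.Q124.NF
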