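import Pool.Agent.Q253.NF.Stm4
import Pool.Agent.Q184.NF.LA
import Pool.Agent.Q14.LQ.LA1

set_option autoImplicit false
set_option linter.unusedSectionVars false

/-!
# Project NF (helper253), job LE: preparations

The facts of `Pool.Agent.Q184.NF.LA` in a half plane `Re z > a` in which the transform of the prime sum converges absolutely.
-/

namespace Pool.Agent.Q124.NF

open MeasureTheory Filter Topology Set Complex
open scoped ComplexConjugate
open Pool.Agent.Q253.NF Pool.Agent.Q184.NF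

section
variable {ι : Type} [Fintype ι] (D : ι → Dat) (n : ι → ℤ)

/-- the elementary part of the continuation -/
noncomputable def Psi (z : ℂ) : ℂ := ∑ i, (n i : ℂ) * ((D i).A + (D i).m0 * logDeriv Gammaℝ (1 / 2 + z) +
    (D i).m1 * logDeriv Gammaℝ (3 / 2 + z) +
    (D i).p * (1 / (z + 1 / 2)) - (1 + z) / 2 * (D i).S 1 + (D i).p * (4 / 3 * (z + 1 / 2)))

theorem Phi_split (z : ℂ) : Phi D n z = -((1 - z ^ 2) / 2) * lc (PP D n) z + Psi D n z := rfl

theorem Psi_diff {z : ℂ} (hz : 0 < z.re) : DifferentiableAt ℂ (Psi D n) z := by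
  have g0 : DifferentiableAt ℂ (fun z => logDeriv Gammaℝ (1 / 2 + z)) z := Gamma_diff (by norm_num) hz
  have g1 : DifferentiableAt ℂ (fun z => logDeriv Gammaℝ (3 / 2 + z)) z := Gamma_diff (by norm_num) hz
  have n5 : z + 1 / 2 ≠ 0 := by
    intro h
    have := congrArg Complex.re h
    rw [Complex.add_re] at this
    norm_num at this
    linarith
  have h2 : DifferentiableAt ℂ (fun z : ℂ => 1 / (z + 1 / 2)) z :=
    (differentiableAt_const _).div (by fun_prop) n5
  unfold Psi
  refine DifferentiableAt.fun_sum fun i _ => DifferentiableAt.const_mul ?_ _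
  exact ((((((differentiableAt_const _).add (g0.const_mul _)).add (g1.const_mul _)).add (h2.const_mul _)).sub
    (by fun_prop)).add (by fun_prop))

theorem Phi_diff' {a : ℝ} (ha : 0 ≤ a)
    (hi : ∀ σ : ℝ, a < σ → IntegrableOn (fun u => ‖PP D n u‖ * Real.exp (-(σ * u))) (Ioi 0)) {z : ℂ} (hz : a < z.re) :
    DifferentiableAt ℂ (Phi D n) z := by
  have h1 := lc_diff (PP_cont D n) hi hz
  have h2 := Psi_diff D n (z := z) (by linarith)
  have h3 := ((by fun_prop : DifferentiableAt ℂ (fun z : ℂ => -((1 - z ^ 2) / 2)) z).mul h1).add h2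
  exact h3

theorem ident' {a : ℝ} (ha : 0 ≤ a)
    (hi : ∀ σ : ℝ, a < σ → IntegrableOn (fun u => ‖PP D n u‖ * Real.exp (-(σ * u))) (Ioi 0)) {z : ℂ} (hz : a < z.re)
    (hX : ∀ i, (D i).X z ≠ 0) : ∑ i, (n i : ℂ) * logDeriv (D i).X z = Phi D n z := by
  classical
  have hopen : IsOpen {z : ℂ | a < z.re} := isOpen_lt continuous_const Complex.continuous_re
  have hconn : IsPreconnected {z : ℂ | a < z.re} := (convex_halfSpace_re_gt a).isPreconnected
  have key : ∀ w : ℂ, (∀ i, (D i).X w ≠ 0) → ∑ i, (n i : ℂ) * (deriv (D i).X w * ∏ j ∈ Finset.univ.erase i, (D j).X w) =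
      (∏ j, (D j).X w) * ∑ i, (n i : ℂ) * logDeriv (D i).X w := by
    intro w hw
    rw [Finset.mul_sum]
    refine Finset.sum_congr rfl fun i _ => ?_
    rw [← Finset.mul_prod_erase Finset.univ (fun j => (D j).X w) (Finset.mem_univ i), logDeriv_apply]
    field_simp [hw i]
  have step : (∏ j, (D j).X z) * Phi D n z =
      ∑ i, (n i : ℂ) * (deriv (D i).X z * ∏ j ∈ Finset.univ.erase i, (D j).X z) := by
    have hA1 : AnalyticOnNhd ℂ (fun z => (∏ j, (D j).X z) * Phi D n z) {z : ℂ | a < z.re} := by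
      refine DifferentiableOn.analyticOnNhd (fun z hz => DifferentiableAt.differentiableWithinAt ?_) hopen
      exact (DifferentiableAt.fun_finsetProd fun j _ => (D j).diff z).mul (Phi_diff' D n ha hi hz)
    have hA2 : AnalyticOnNhd ℂ (fun z => ∑ i, (n i : ℂ) * (deriv (D i).X z *
        ∏ j ∈ Finset.univ.erase i, (D j).X z)) {z : ℂ | a < z.re} := by
      refine DifferentiableOn.analyticOnNhd (fun z hz => DifferentiableAt.differentiableWithinAt ?_) hopen
      exact DifferentiableAt.fun_sum fun i _ => (((D i).diff.deriv z).mul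
        (DifferentiableAt.fun_finsetProd fun j _ => (D j).diff z)).const_mul _
    set w0 : ℂ := ((a + 2 : ℝ) : ℂ) with hw0
    have hwre : w0.re = a + 2 := by rw [hw0, Complex.ofReal_re]
    have h2 : w0 ∈ {z : ℂ | a < z.re} := by
      show a < w0.re
      rw [hwre]
      linarith
    refine hA1.eqOn_of_preconnected_of_eventuallyEq hA2 hconn h2 ?_ hz
    have h3 : {z : ℂ | a + 1 < z.re} ∈ 𝓝 w0 :=
      (isOpen_lt continuous_const Complex.continuous_re).mem_nhds (by
        show a + 1 < w0.re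
        rw [hwre]
        linarith)
    filter_upwards [h3] with w hw
    have hw' : a + 1 < w.re := hw
    rw [key w fun i => X_ne (D i) (by linarith), Phi_eq D n (by linarith)]
  rw [key z hX] at step
  exact (mul_left_cancel₀ (Finset.prod_ne_zero_iff.2 fun i _ => hX i) step).symm

theorem nn_pos' {a : ℝ} (ha : 0 ≤ a)
    (hi : ∀ σ : ℝ, a < σ → IntegrableOn (fun u => ‖PP D n u‖ * Real.exp (-(σ * u))) (Ioi 0)) {b : ℂ} (hb : a < b.re) :
    nn D n b = 0 := by
  have h1 := res_sum D n b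
  have hopen : IsOpen {z : ℂ | a < z.re} := isOpen_lt continuous_const Complex.continuous_re
  have h2 : Tendsto (fun z => (z - b) * Phi D n z) (𝓝[≠] b) (𝓝 0) := by
    have h3 : ContinuousAt (fun z => (z - b) * Phi D n z) b :=
      (continuousAt_id.sub continuousAt_const).mul (Phi_diff' D n ha hi hb).continuousAt
    have h4 := h3.tendsto
    simp only [sub_self, zero_mul] at h4
    exact h4.mono_left nhdsWithin_le_nhds
  have hev : ∀ᶠ z in 𝓝[≠] b, (z - b) * ∑ i, (n i : ℂ) * logDeriv (D i).X z = (z - b) * Phi D n z := by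
    have h5 : ∀ᶠ z in 𝓝[≠] b, ∀ i, (D i).X z ≠ 0 := eventually_all.2 fun i => (res (D i) b).2
    filter_upwards [h5, nhdsWithin_le_nhds (hopen.mem_nhds hb)] with z hz1 hz2
    rw [ident' D n ha hi hz2 hz1]
  have h6 := tendsto_nhds_unique (h1.congr' hev) h2
  exact_mod_cast h6

/-- symmetry of the multiplicities -/
theorem m_conj (E : Dat) (a : ℂ) : E.m (-conj a) = E.m a := by
  have h1 := (res E (-conj a)).1
  have h2 := (res E a).1
  have hg : Tendsto (fun w : ℂ => -conj w) (𝓝[≠] a) (𝓝[≠] (-conj a)) := by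
    refine tendsto_nhdsWithin_iff.2 ⟨?_, ?_⟩
    · have : ContinuousAt (fun w : ℂ => -conj w) a := (Complex.continuous_conj.neg).continuousAt
      exact this.tendsto.mono_left nhdsWithin_le_nhds
    · filter_upwards [self_mem_nhdsWithin] with w hw
      intro h
      apply hw
      have h3 : -conj w = -conj a := h
      have h4 := congrArg conj (neg_injective h3)
      simpa using h4
  have h3 := h1.comp hg
  have h4 : Tendsto (fun w : ℂ => conj ((w - a) * logDeriv E.X w)) (𝓝[≠] a) (𝓝 (conj (E.m a : ℂ))) :=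
    (Complex.continuous_conj.tendsto _).comp h2
  have h5 : (fun w : ℂ => conj ((w - a) * logDeriv E.X w)) =
      (fun z => (z - -conj a) * logDeriv E.X z) ∘ fun w : ℂ => -conj w := by
    funext w
    simp only [Function.comp]
    rw [refl, map_mul, map_sub]
    ring
  rw [h5] at h4
  have h6 := tendsto_nhds_unique h3 h4
  rw [Complex.conj_natCast] at h6
  exact_mod_cast h6

theorem nn_conj (a : ℂ) : nn D n (-conj a) = nn D n a := by
  unfold nn
  exact Finset.sum_congr rfl fun i _ => by rw [m_conj]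

/-- the local form of the logarithmic derivative -/
theorem res_loc (E : Dat) (a : ℂ) : ∃ g : ℂ → ℂ, AnalyticAt ℂ g a ∧
    ∀ᶠ z in 𝓝[≠] a, logDeriv E.X z = (E.m a : ℂ) / (z - a) + g z := by
  have hA : AnalyticOnNhd ℂ E.X univ := E.diff.differentiableOn.analyticOnNhd isOpen_univ
  have h1 : analyticOrderAt E.X 1 ≠ ⊤ := by
    have h2 : analyticOrderAt E.X 1 = 0 := analyticOrderAt_eq_zero.2 (Or.inr (X_ne E (by norm_num)))
    rw [h2]
    exact ENat.zero_ne_top
  have h2 : analyticOrderAt E.X a ≠ ⊤ :=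
    hA.analyticOrderAt_ne_top_of_isPreconnected isPreconnected_univ (mem_univ _) (mem_univ _) h1
  obtain ⟨g, hg, hg0, hgX⟩ := (hA a (mem_univ _)).analyticOrderAt_ne_top.1 h2
  have e1 : ∀ᶠ z in 𝓝 a, E.X =ᶠ[𝓝 z] fun z => (z - a) ^ (analyticOrderNatAt E.X a) • g z :=
    hgX.eventuallyEq_nhds
  have e2 : ∀ᶠ z in 𝓝 a, g z ≠ 0 := hg.continuousAt.eventually_ne hg0
  have e3 : ∀ᶠ z in 𝓝 a, AnalyticAt ℂ g z := hg.eventually_analyticAt
  refine ⟨logDeriv g, hg.deriv.div hg hg0, ?_⟩
  filter_upwards [nhdsWithin_le_nhds e1, nhdsWithin_le_nhds e2, nhdsWithin_le_nhds e3, self_mem_nhdsWithin]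
    with z h1 h2 h3 h4
  have hz : z - a ≠ 0 := sub_ne_zero.2 h4
  have e4 : logDeriv E.X z = logDeriv (fun z => (z - a) ^ (analyticOrderNatAt E.X a) * g z) z := by
    rw [logDeriv_apply, logDeriv_apply, h1.deriv_eq, h1.eq_of_nhds]
    rfl
  have d1 : DifferentiableAt ℂ (fun z : ℂ => z - a) z := by fun_prop
  have e6 : logDeriv (fun z => (z - a) ^ (analyticOrderNatAt E.X a) * g z) z =
      logDeriv (fun z => (z - a) ^ (analyticOrderNatAt E.X a)) z + logDeriv g z :=
    logDeriv_mul (f := fun z : ℂ => (z - a) ^ (analyticOrderNatAt E.X a)) z (pow_ne_zero _ hz) h2 (d1.fun_pow _)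
      h3.differentiableAt
  rw [e4, e6, logDeriv_fun_pow d1, logDeriv_apply (fun z : ℂ => z - a)]
  have e5 : deriv (fun z : ℂ => z - a) z = 1 := by
    rw [deriv_sub_const, deriv_id'']
  rw [e5]
  unfold Dat.m
  field_simp

theorem res_loc_sum (a : ℂ) : ∃ g : ℂ → ℂ, AnalyticAt ℂ g a ∧
    ∀ᶠ z in 𝓝[≠] a, ∑ i, (n i : ℂ) * logDeriv (D i).X z = (nn D n a : ℂ) / (z - a) + g z := by
  choose g hg h using fun i => res_loc (D i) a
  refine ⟨fun z => ∑ i, (n i : ℂ) * g i z, ?_, ?_⟩
  · exact Finset.analyticAt_fun_sum _ fun i _ => analyticAt_const.mul (hg i)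
  · have h5 : ∀ᶠ z in 𝓝[≠] a, ∀ i, logDeriv (D i).X z = ((D i).m a : ℂ) / (z - a) + g i z := eventually_all.2 h
    filter_upwards [h5] with z hz
    unfold nn
    push_cast
    rw [Finset.sum_div, ← Finset.sum_add_distrib]
    refine Finset.sum_congr rfl fun i _ => ?_
    rw [hz i]
    ring

end

end Pool.Agent.Q124.NF
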